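import Pool.Agent.U136.DX.Stm

set_option autoImplicit false

/-!
Project DX, package CNT3: integer points in a cube at which a polynomial is small.
-/

namespace Pool.Agent.U739.DX.CNT3

open Pool.Agent.N983.RT Pool.Agent.U136.DS Pool.Agent.U136.DX Finset

/-- run ends of a polynomial in one variable -/
lemma runEnds (D : ℕ) (q : Polynomial ℝ) (hq : q.natDegree ≤ D) (h : ℝ) (h0 : 0 ≤ h)
    (Z : Finset ℤ) (hZ : ∀ z ∈ Z, |q.eval (z : ℝ)| ≤ h ∧ h < |q.eval ((z : ℝ) + 1)|) :
    Z.card ≤ 2 * D := by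
  classical
  rcases Z.eq_empty_or_nonempty with rfl | ⟨z₀, hz₀⟩
  · simp
  set g : Polynomial ℝ := q ^ 2 - Polynomial.C (h ^ 2) with hg
  have heval : ∀ x : ℝ, g.eval x = (q.eval x) ^ 2 - h ^ 2 := fun x => by simp [hg]
  have hne : g ≠ 0 := by
    intro h1
    have h2 := heval ((z₀ : ℝ) + 1)
    rw [h1, Polynomial.eval_zero] at h2
    have h3 := (hZ z₀ hz₀).2
    have h4 : h ^ 2 < (q.eval ((z₀ : ℝ) + 1)) ^ 2 := by
      rw [← sq_abs (q.eval ((z₀ : ℝ) + 1))]
      exact pow_lt_pow_left₀ h3 h0 two_ne_zero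
    linarith
  have hdeg : g.natDegree ≤ 2 * D := by
    rw [hg, Polynomial.natDegree_sub_C]
    refine (Polynomial.natDegree_pow_le).trans ?_
    exact Nat.mul_le_mul_left 2 hq
  have hsub : Z ⊆ g.roots.toFinset.image (fun x : ℝ => ⌊x⌋) := by
    intro z hz
    obtain ⟨h1, h2⟩ := hZ z hz
    have a1 : g.eval (z : ℝ) ≤ 0 := by
      rw [heval, ← sq_abs (q.eval (z : ℝ))]
      have := pow_le_pow_left₀ (abs_nonneg _) h1 2
      linarith
    have a2 : 0 < g.eval ((z : ℝ) + 1) := by
      rw [heval, ← sq_abs (q.eval ((z : ℝ) + 1))]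
      have := pow_lt_pow_left₀ h2 h0 two_ne_zero
      linarith
    obtain ⟨x, hx, hx0⟩ : (0 : ℝ) ∈ (fun x => g.eval x) '' Set.Icc (z : ℝ) ((z : ℝ) + 1) :=
      intermediate_value_Icc (by linarith) g.continuous.continuousOn ⟨a1, a2.le⟩
    have hx0' : g.eval x = 0 := hx0
    have hlt : x < (z : ℝ) + 1 := by
      rcases lt_or_eq_of_le hx.2 with h3 | h3
      · exact h3
      · rw [h3] at hx0'
        linarith
    refine mem_image.2 ⟨x, ?_, ?_⟩
    · rw [Multiset.mem_toFinset, Polynomial.mem_roots hne]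
      exact hx0'
    · exact Int.floor_eq_iff.2 ⟨hx.1, hlt⟩
  calc Z.card ≤ (g.roots.toFinset.image (fun x : ℝ => ⌊x⌋)).card := card_le_card hsub
    _ ≤ g.roots.toFinset.card := card_image_le
    _ ≤ Multiset.card g.roots := Multiset.toFinset_card_le _
    _ ≤ g.natDegree := Polynomial.card_roots' g
    _ ≤ 2 * D := hdeg

/-- the points of the cube at which the shifted polynomial crosses the level `h` in direction `i` -/
noncomputable def cross (P : Wv → ℝ) (h : ℝ) (R : ℕ) (i : Fin 3) (w : Wv) : Finset Wv :=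
  open Classical in
  (cub R).filter fun k => |P (k + w)| ≤ h ∧ h < |P (k + w + Pi.single i 1)|

lemma card_cross {D : ℕ} {P : Wv → ℝ} (hP : PolyD D P) {h : ℝ} (h0 : 0 ≤ h) (R : ℕ) (i : Fin 3)
    (w : Wv) : (cross P h R i w).card ≤ 2 * D * (2 * R + 1) ^ 2 := by
  classical
  set T : Finset Wv := Fintype.piFinset fun j : Fin 3 =>
    if j = i then {(0 : ℤ)} else Finset.Icc (-(R : ℤ)) (R : ℤ) with hT
  have hTc : T.card = (2 * R + 1) ^ 2 := by
    rw [hT, Fintype.card_piFinset]
    have e : ∀ j : Fin 3, (if j = i then {(0 : ℤ)} else Finset.Icc (-(R : ℤ)) (R : ℤ)).card =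
        if j = i then 1 else 2 * R + 1 := by
      intro j
      split_ifs
      · simp
      · rw [Int.card_Icc]
        omega
    rw [prod_congr rfl fun j _ => e j, Fin.prod_univ_three]
    fin_cases i <;> simp [sq]
  have himg : (cross P h R i w).image (fun k => Function.update k i (0 : ℤ)) ⊆ T := by
    intro b hb
    obtain ⟨k, hk, rfl⟩ := mem_image.1 hb
    have hk1 : k ∈ cub R := (mem_filter.1 hk).1
    rw [hT, Fintype.mem_piFinset]
    intro j
    by_cases hj : j = i
    · subst hj
      simp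
    · rw [if_neg hj, Function.update_of_ne hj]
      exact Fintype.mem_piFinset.1 hk1 j
  have hfib : ∀ b ∈ (cross P h R i w).image (fun k => Function.update k i (0 : ℤ)),
      ((cross P h R i w).filter fun k => Function.update k i (0 : ℤ) = b).card ≤ 2 * D := by
    intro b _
    obtain ⟨q, hq, hqe⟩ := hP (b + w) i
    set Fb := (cross P h R i w).filter fun k => Function.update k i (0 : ℤ) = b with hFb
    have hup : ∀ k ∈ Fb, ∀ s : ℤ, k + w + Pi.single i s =
        Function.update (b + w) i (k i + w i + s) := by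
      intro k hk s
      have h1 := (mem_filter.1 hk).2
      ext j
      by_cases hj : j = i
      · subst hj
        simp
      · rw [Function.update_of_ne hj, ← h1]
        simp [Function.update_of_ne hj, Pi.single_eq_of_ne hj]
    have hinj : Set.InjOn (fun k : Wv => k i + w i) Fb := by
      intro k hk k' hk' hkk
      have h1 := (mem_filter.1 (mem_coe.1 hk)).2
      have h2 := (mem_filter.1 (mem_coe.1 hk')).2
      ext j
      by_cases hj : j = i
      · subst hj
        have : k j + w j = k' j + w j := hkk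
        linarith
      · have h3 : Function.update k i (0 : ℤ) j = Function.update k' i (0 : ℤ) j := by rw [h1, h2]
        rwa [Function.update_of_ne hj, Function.update_of_ne hj] at h3
    rw [← card_image_of_injOn hinj]
    apply runEnds D q hq h h0
    intro z hz
    obtain ⟨k, hk, rfl⟩ := mem_image.1 hz
    have h1 := (mem_filter.1 (mem_filter.1 hk).1).2
    have e0 := hup k hk 0
    have e1 := hup k hk 1
    rw [Pi.single_zero, add_zero, add_zero] at e0
    have f0 := hqe (k i + w i)
    have f1 := hqe (k i + w i + 1)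
    rw [← e0] at f0
    rw [← e1] at f1
    constructor
    · rw [← f0]; exact h1.1
    · have : ((k i + w i : ℤ) : ℝ) + 1 = ((k i + w i + 1 : ℤ) : ℝ) := by push_cast; ring
      rw [this, ← f1]; exact h1.2
  calc (cross P h R i w).card
      ≤ 2 * D * ((cross P h R i w).image (fun k => Function.update k i (0 : ℤ))).card :=
        card_le_mul_card_image _ _ hfib
    _ ≤ 2 * D * (2 * R + 1) ^ 2 := by
        rw [← hTc]
        exact Nat.mul_le_mul_left _ (card_le_card himg)

/-- if there is no crossing then the polynomial stays small on the whole box -/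
lemma noCross {P : Wv → ℝ} {h : ℝ} {N : ℕ} {k : Wv} (hk : |P k| ≤ h)
    (hno : ∀ i : Fin 3, ∀ w ∈ box N, |P (k + w)| ≤ h → |P (k + w + Pi.single i 1)| ≤ h) :
    ∀ n : ℕ, ∀ w ∈ box N, ∑ i, w i = (n : ℤ) → |P (k + w)| ≤ h := by
  intro n
  induction n with
  | zero =>
    intro w hw hs
    have h1 : ∀ i, 0 ≤ w i := fun i => (Finset.mem_Icc.1 (Fintype.mem_piFinset.1 hw i)).1
    have h2 : w = 0 := by
      ext i
      have h3 := (Finset.sum_eq_zero_iff_of_nonneg fun i _ => h1 i).1 (by simpa using hs) i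
        (mem_univ i)
      simpa using h3
    rw [h2, add_zero]
    exact hk
  | succ n ih =>
    intro w hw hs
    have h1 : ∀ i, 0 ≤ w i ∧ w i ≤ (N : ℤ) := fun i =>
      Finset.mem_Icc.1 (Fintype.mem_piFinset.1 hw i)
    obtain ⟨i, hi⟩ : ∃ i, 1 ≤ w i := by
      by_contra hcon
      push Not at hcon
      have h2 : ∑ i, w i ≤ 0 := Finset.sum_nonpos fun i _ => by
        have := hcon i
        omega
      rw [hs] at h2
      push_cast at h2
      omega
    set w' : Wv := w - Pi.single i 1 with hw'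
    have e : w = w' + Pi.single i 1 := by rw [hw', sub_add_cancel]
    have hw'b : w' ∈ box N := by
      refine Fintype.mem_piFinset.2 fun j => Finset.mem_Icc.2 ?_
      rw [hw', Pi.sub_apply]
      by_cases hj : j = i
      · subst hj
        rw [Pi.single_eq_same]
        have := h1 j
        omega
      · rw [Pi.single_eq_of_ne hj, sub_zero]
        exact h1 j
    have hs' : ∑ j, w' j = (n : ℤ) := by
      have h3 : ∑ j, w j = ∑ j, w' j + 1 := by
        conv_lhs => rw [e]
        simp [Finset.sum_add_distrib]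
      rw [hs] at h3
      push_cast at h3
      linarith
    have h4 := hno i w' hw'b (ih w' hw'b hs')
    rw [e, ← add_assoc]
    exact h4

theorem t_CNT3 : S_CNT3 := by
  classical
  intro D N
  refine ⟨3 * ((N : ℝ) + 1) ^ 3 * (2 * D) * 9, by positivity, ?_⟩
  intro P hP h R hR A hA hAP
  rcases A.eq_empty_or_nonempty with rfl | ⟨k₀, hk₀⟩
  · simp only [card_empty, Nat.cast_zero, filter_empty, add_zero]
    positivity
  have h0 : 0 ≤ h := (abs_nonneg _).trans (hAP k₀ hk₀)
  set good := A.filter fun k => ∀ y ∈ box N, |P (k + y)| ≤ h with hgood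
  set bad := A.filter fun k => ¬ ∀ y ∈ box N, |P (k + y)| ≤ h with hbad
  have hcard : A.card = good.card + bad.card := (card_filter_add_card_filter_not _).symm
  have hsub : bad ⊆ (univ : Finset (Fin 3)).biUnion fun i => (box N).biUnion fun w =>
      cross P h R i w := by
    intro k hk
    obtain ⟨hkA, hk1⟩ := mem_filter.1 hk
    by_contra hcon
    apply hk1
    intro y hy
    have hno : ∀ i : Fin 3, ∀ w ∈ box N, |P (k + w)| ≤ h →
        |P (k + w + Pi.single i 1)| ≤ h := by
      intro i w hw h1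
      by_contra h2
      push Not at h2
      apply hcon
      refine mem_biUnion.2 ⟨i, mem_univ i, mem_biUnion.2 ⟨w, hw, ?_⟩⟩
      exact mem_filter.2 ⟨hA hkA, h1, h2⟩
    have hs : 0 ≤ ∑ i, y i := Finset.sum_nonneg fun i _ =>
      (Finset.mem_Icc.1 (Fintype.mem_piFinset.1 hy i)).1
    exact noCross (hAP k hkA) hno (∑ i, y i).toNat y hy (by rw [Int.toNat_of_nonneg hs])
  have hbox : (box N).card = (N + 1) ^ 3 := by
    unfold Pool.Agent.U136.DX.box
    rw [Fintype.card_piFinset]
    simp
  have hb : bad.card ≤ 3 * ((N + 1) ^ 3 * (2 * D * (2 * R + 1) ^ 2)) := by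
    refine (card_le_card hsub).trans ?_
    refine (card_biUnion_le_card_mul _ _ ((N + 1) ^ 3 * (2 * D * (2 * R + 1) ^ 2))
      fun i _ => ?_).trans (le_of_eq ?_)
    · refine (card_biUnion_le_card_mul _ _ _ fun w _ => card_cross hP h0 R i w).trans ?_
      rw [hbox]
    · simp
  have hb' : (bad.card : ℝ) ≤ 3 * ((N : ℝ) + 1) ^ 3 * (2 * D) * 9 * (R : ℝ) ^ 2 := by
    have h1 : (bad.card : ℝ) ≤ 3 * (((N : ℝ) + 1) ^ 3 * (2 * D * (2 * R + 1) ^ 2)) := by
      exact_mod_cast hb
    refine h1.trans ?_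
    have hR' : (1:ℝ) ≤ R := by exact_mod_cast hR
    have h2 : (2 * (R:ℝ) + 1) ^ 2 ≤ 9 * (R:ℝ) ^ 2 := by nlinarith
    have h3 : 0 ≤ 3 * ((N : ℝ) + 1) ^ 3 * (2 * D) := by positivity
    calc 3 * (((N : ℝ) + 1) ^ 3 * (2 * D * (2 * R + 1) ^ 2))
        = 3 * ((N : ℝ) + 1) ^ 3 * (2 * D) * (2 * R + 1) ^ 2 := by ring
      _ ≤ 3 * ((N : ℝ) + 1) ^ 3 * (2 * D) * (9 * (R:ℝ) ^ 2) :=
          mul_le_mul_of_nonneg_left h2 h3
      _ = _ := by ring
  have hc : (A.card : ℝ) = (good.card : ℝ) + bad.card := by exact_mod_cast hcard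
  rw [hc]
  linarith

end Pool.Agent.U739.DX.CNT3
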